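import Mathlib

/-!
# Substitution operators on polynomials in three variables
-/

open MvPolynomial

namespace Pool.Agent.Sph

section Basic

variable {S S' : Type*} [CommRing S] [CommRing S']

/-- the substitution `P ↦ P (G x)` -/
noncomputable def sb (G : Matrix (Fin 3) (Fin 3) S) :
    MvPolynomial (Fin 3) S →ₐ[S] MvPolynomial (Fin 3) S :=
  aeval fun i => ∑ j, C (G i j) * X j

theorem sb_X (G : Matrix (Fin 3) (Fin 3) S) (i : Fin 3) : sb G (X i) = ∑ j, C (G i j) * X j := by
  unfold sb; rw [aeval_X]

theorem sb_C (G : Matrix (Fin 3) (Fin 3) S) (a : S) : sb G (C a) = C a := by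
  unfold sb; rw [aeval_C]; rfl

theorem sb_mul (G H : Matrix (Fin 3) (Fin 3) S) (P : MvPolynomial (Fin 3) S) :
    sb (G * H) P = sb H (sb G P) := by
  have h : sb (G * H) = (sb H).comp (sb G) := by
    apply algHom_ext
    intro i
    rw [AlgHom.comp_apply, sb_X, sb_X, map_sum]
    simp only [map_mul, sb_C, sb_X, Matrix.mul_apply, map_sum, Finset.sum_mul, Finset.mul_sum]
    rw [Finset.sum_comm]
    refine Finset.sum_congr rfl fun j _ => Finset.sum_congr rfl fun l _ => ?_
    ring
  rw [h]; rfl

theorem sb_one (P : MvPolynomial (Fin 3) S) : sb (1 : Matrix (Fin 3) (Fin 3) S) P = P := by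
  have h : sb (1 : Matrix (Fin 3) (Fin 3) S) = AlgHom.id S _ := by
    apply algHom_ext
    intro i
    rw [sb_X, AlgHom.id_apply]
    simp [Matrix.one_apply]
  rw [h]; rfl

theorem map_sb (f : S →+* S') (G : Matrix (Fin 3) (Fin 3) S) (P : MvPolynomial (Fin 3) S) :
    map f (sb G P) = sb (G.map f) (map f P) := by
  induction P using MvPolynomial.induction_on with
  | C a => rw [sb_C, map_C, sb_C]
  | add p q hp hq => rw [map_add, map_add, map_add, map_add, hp, hq]
  | mul_X p i hp =>
    rw [map_mul, map_mul, map_mul, map_mul, hp, sb_X, map_X, sb_X, map_sum]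
    simp [Matrix.map_apply]

theorem eval_sb (x : Fin 3 → S) (G : Matrix (Fin 3) (Fin 3) S) (P : MvPolynomial (Fin 3) S) :
    eval x (sb G P) = eval (G.mulVec x) P := by
  induction P using MvPolynomial.induction_on with
  | C a => rw [sb_C, eval_C, eval_C]
  | add p q hp hq => rw [map_add, map_add, map_add, hp, hq]
  | mul_X p i hp =>
    rw [map_mul, map_mul, map_mul, hp, sb_X, eval_X, map_sum]
    simp [Matrix.mulVec, dotProduct]

theorem sb_homogeneous (G : Matrix (Fin 3) (Fin 3) S) {P : MvPolynomial (Fin 3) S} {n : ℕ}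
    (h : P.IsHomogeneous n) : (sb G P).IsHomogeneous n := by
  have h1 := h.aeval (fun i => ∑ j, C (G i j) * X j) (n := 1) (fun i => by
    apply IsHomogeneous.sum
    intro j _
    have := (isHomogeneous_C (Fin 3) (G i j)).mul (isHomogeneous_X S j)
    rwa [zero_add] at this)
  rwa [one_mul] at h1

theorem sb_totalDegree (G : Matrix (Fin 3) (Fin 3) S) {P : MvPolynomial (Fin 3) S} {n : ℕ}
    (h : P.totalDegree ≤ n) : (sb G P).totalDegree ≤ n := by
  rw [← sum_homogeneousComponent P, map_sum]
  refine (totalDegree_finsetSum _ _).trans (Finset.sup_le ?_)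
  intro i hi
  have h1 := (sb_homogeneous G (homogeneousComponent_isHomogeneous i P)).totalDegree_le
  rw [Finset.mem_range] at hi
  omega

/-- the operator `P ↦ P + P ∘ G + P ∘ H` -/
noncomputable def TT (G H : Matrix (Fin 3) (Fin 3) S) :
    MvPolynomial (Fin 3) S →ₗ[S] MvPolynomial (Fin 3) S :=
  LinearMap.id + (sb G).toLinearMap + (sb H).toLinearMap

theorem TT_apply (G H : Matrix (Fin 3) (Fin 3) S) (P : MvPolynomial (Fin 3) S) :
    TT G H P = P + sb G P + sb H P := rfl

theorem map_TT (f : S →+* S') (G H : Matrix (Fin 3) (Fin 3) S) (P : MvPolynomial (Fin 3) S) :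
    map f (TT G H P) = TT (G.map f) (H.map f) (map f P) := by
  rw [TT_apply, TT_apply, map_add, map_add, map_sb, map_sb]

theorem TT_totalDegree (G H : Matrix (Fin 3) (Fin 3) S) {P : MvPolynomial (Fin 3) S} {n : ℕ}
    (h : P.totalDegree ≤ n) : (TT G H P).totalDegree ≤ n := by
  rw [TT_apply]
  refine (totalDegree_add _ _).trans (max_le ((totalDegree_add _ _).trans (max_le h ?_)) ?_)
  · exact sb_totalDegree G h
  · exact sb_totalDegree H h

/-- the exponents of degree at most `n` -/
abbrev Ix (n : ℕ) : Type := {m : Fin 3 →₀ ℕ // m.degree ≤ n}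

instance (n : ℕ) : Finite (Ix n) := (Finsupp.finite_of_degree_le (σ := Fin 3) n).to_subtype

noncomputable instance (n : ℕ) : Fintype (Ix n) := Fintype.ofFinite _

/-- matrix of `TT` on the monomials of degree at most `n` -/
noncomputable def MM (G H : Matrix (Fin 3) (Fin 3) S) (n : ℕ) : Matrix (Ix n) (Ix n) S :=
  fun a b => coeff a.1 (TT G H (monomial b.1 1))

theorem MM_map (f : S →+* S') (G H : Matrix (Fin 3) (Fin 3) S) (n : ℕ) :
    MM (G.map f) (H.map f) n = (MM G H n).map f := by
  funext a b
  rw [Matrix.map_apply]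
  unfold MM
  rw [← coeff_map, map_TT, map_monomial, RingHom.map_one]

theorem det_MM_map (f : S →+* S') (G H : Matrix (Fin 3) (Fin 3) S) (n : ℕ) :
    (MM (G.map f) (H.map f) n).det = f (MM G H n).det := by
  rw [MM_map]
  exact (RingHom.map_det f _).symm

theorem eq_sum_monomial {P : MvPolynomial (Fin 3) S} {n : ℕ} (h : P.totalDegree ≤ n) :
    P = ∑ b : Ix n, coeff b.1 P • monomial b.1 1 := by
  ext m
  rw [coeff_sum]
  simp only [coeff_smul, coeff_monomial, smul_eq_mul, mul_ite, mul_one, mul_zero]
  by_cases hm : m.degree ≤ n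
  · rw [Finset.sum_eq_single (⟨m, hm⟩ : Ix n)]
    · simp
    · intro b _ hb
      rw [if_neg]
      intro h'
      exact hb (Subtype.ext h')
    · intro h'
      exact absurd (Finset.mem_univ _) h'
  · rw [Finset.sum_eq_zero]
    · by_contra hne
      have h1 := le_totalDegree (mem_support_iff.2 hne)
      apply hm
      calc m.degree = m.sum fun _ e => e := rfl
        _ ≤ n := h1.trans h
    · intro b _
      rw [if_neg]
      intro h'
      exact hm (h' ▸ b.2)

theorem coeff_TT {P : MvPolynomial (Fin 3) S} {n : ℕ} (h : P.totalDegree ≤ n)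
    (G H : Matrix (Fin 3) (Fin 3) S) (a : Ix n) :
    coeff a.1 (TT G H P) = ((MM G H n).mulVec fun b => coeff b.1 P) a := by
  conv_lhs => rw [eq_sum_monomial h]
  rw [map_sum, coeff_sum]
  unfold Matrix.mulVec dotProduct MM
  apply Finset.sum_congr rfl
  intro b _
  rw [map_smul, coeff_smul, smul_eq_mul, mul_comm]

end Basic

section Field

variable {K : Type*} [Field K]

theorem det_ne_zero_of_injective {G H : Matrix (Fin 3) (Fin 3) K}
    (h : Function.Injective (TT G H)) (n : ℕ) : (MM G H n).det ≠ 0 := by
  intro hdet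
  obtain ⟨v, hv, hMv⟩ := Matrix.exists_mulVec_eq_zero_iff.2 hdet
  set P : MvPolynomial (Fin 3) K := ∑ b : Ix n, v b • monomial b.1 1 with hP
  have hc : ∀ b : Ix n, coeff b.1 P = v b := by
    intro b
    rw [hP, coeff_sum, Finset.sum_eq_single b]
    · simp
    · intro b' _ hb'
      rw [coeff_smul, coeff_monomial, if_neg, smul_zero]
      intro h'
      exact hb' (Subtype.ext h')
    · intro h'
      exact absurd (Finset.mem_univ _) h'
  have hdeg : P.totalDegree ≤ n := by
    rw [hP]
    refine (totalDegree_finsetSum _ _).trans (Finset.sup_le ?_)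
    intro b _
    refine (totalDegree_smul_le _ _).trans ?_
    refine (totalDegree_monomial_le _ _).trans ?_
    exact b.2
  have hT : TT G H P = 0 := by
    ext m
    rw [coeff_zero]
    by_cases hm : m.degree ≤ n
    · have h1 := coeff_TT hdeg G H ⟨m, hm⟩
      simp only [hc] at h1
      rw [h1]
      exact congrFun hMv _
    · by_contra hne
      have h1 := le_totalDegree (mem_support_iff.2 hne)
      exact hm (h1.trans (TT_totalDegree G H hdeg))
  have hP0 : P = 0 := h (by rw [hT, map_zero])
  apply hv
  funext b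
  rw [← hc b, hP0, coeff_zero]
  rfl

theorem injective_of_det_ne_zero {G H : Matrix (Fin 3) (Fin 3) K}
    (h : ∀ n, (MM G H n).det ≠ 0) : Function.Injective (TT G H) := by
  rw [injective_iff_map_eq_zero]
  intro P hP
  by_contra hne
  apply h P.totalDegree
  rw [← Matrix.exists_mulVec_eq_zero_iff]
  refine ⟨fun b => coeff b.1 P, ?_, ?_⟩
  · intro h0
    apply hne
    rw [eq_sum_monomial (le_refl P.totalDegree)]
    apply Finset.sum_eq_zero
    intro b _
    have := congrFun h0 b
    simp only [Pi.zero_apply] at this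
    rw [this, zero_smul]
  · funext a
    rw [← coeff_TT (le_refl P.totalDegree), hP, coeff_zero]
    rfl

/-- a place transfers injectivity -/
theorem injective_of_place {R k : Type*} [CommRing R] [Field k] {i : R →+* K}
    (hi : Function.Injective i) (φ : R →+* k) {G H : Matrix (Fin 3) (Fin 3) R}
    (h : Function.Injective (TT (G.map φ) (H.map φ))) :
    Function.Injective (TT (G.map i) (H.map i)) := by
  apply injective_of_det_ne_zero
  intro n
  rw [det_MM_map]
  intro h0
  have h1 : (MM G H n).det = 0 := hi (by rw [h0, map_zero])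
  have h2 := det_ne_zero_of_injective h n
  rw [det_MM_map, h1, map_zero] at h2
  exact h2 rfl

theorem TT_surjective {G H : Matrix (Fin 3) (Fin 3) K} (h : Function.Injective (TT G H)) :
    Function.Surjective (TT G H) := by
  intro Q
  set n := Q.totalDegree with hn
  have hmap : ∀ P ∈ restrictTotalDegree (Fin 3) K n, TT G H P ∈ restrictTotalDegree (Fin 3) K n := by
    intro P hP
    rw [mem_restrictTotalDegree] at hP ⊢
    exact TT_totalDegree G H hP
  have hinj : Function.Injective ((TT G H).restrict hmap) := by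
    intro P P' hPP
    apply Subtype.ext
    apply h
    have := congrArg Subtype.val hPP
    simpa using this
  have hsurj := LinearMap.injective_iff_surjective.1 hinj
  obtain ⟨P, hP⟩ := hsurj ⟨Q, by rw [mem_restrictTotalDegree]⟩
  refine ⟨P.1, ?_⟩
  have := congrArg Subtype.val hP
  simpa using this

/-- conjugation -/
theorem TT_conj {B B' G H : Matrix (Fin 3) (Fin 3) K} (hB : B * B' = 1)
    (h : Function.Injective (TT G H)) :
    Function.Injective (TT (B * G * B') (B * H * B')) := by
  have hB' : B' * B = 1 := mul_eq_one_comm.1 hB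
  have key : ∀ P, TT (B * G * B') (B * H * B') P = sb B' (TT G H (sb B P)) := by
    intro P
    rw [TT_apply, TT_apply, map_add, map_add, sb_mul, sb_mul, sb_mul, sb_mul, ← sb_mul B B', hB,
      sb_one]
  have hBinj : ∀ P, sb B P = 0 → P = 0 := by
    intro P hP
    have := sb_mul B B' P
    rw [hB, sb_one, hP, map_zero] at this
    exact this
  have hBinj' : ∀ P, sb B' P = 0 → P = 0 := by
    intro P hP
    have := sb_mul B' B P
    rw [hB', sb_one, hP, map_zero] at this
    exact this
  rw [injective_iff_map_eq_zero]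
  intro P hP
  rw [key] at hP
  exact hBinj P ((injective_iff_map_eq_zero _).1 h _ (hBinj' _ hP))

end Field

end Pool.Agent.Sph
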