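import Pool.Agent.Lib_MP_8c2fb0_lc.Meas

/-!
# One rotation arbitrary, the other one generic on a circle
-/

open MeasureTheory MvPolynomial Metric Set Filter Topology

namespace Pool.Agent.Sph

/-- rotation by the angle `α` about the third axis -/
noncomputable def rot (α : ℝ) : Matrix (Fin 3) (Fin 3) ℝ :=
  !![Real.cos α, -Real.sin α, 0; Real.sin α, Real.cos α, 0; 0, 0, 1]

theorem rot_mem (α : ℝ) : rot α ∈ Matrix.orthogonalGroup (Fin 3) ℝ := by
  rw [Matrix.mem_orthogonalGroup_iff]
  have h := Real.cos_sq_add_sin_sq α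
  ext i j
  fin_cases i <;> fin_cases j <;>
    simp [rot, Matrix.mul_apply, Fin.sum_univ_three, Matrix.star_apply] <;> nlinarith [h]

theorem rot_zero : rot 0 = 1 := by
  ext i j
  fin_cases i <;> fin_cases j <;> simp [rot]

/-- the family `± B R(α) Bᵀ` -/
noncomputable def fam (s : ℝ) (B : Matrix (Fin 3) (Fin 3) ℝ) (α : ℝ) :
    Matrix (Fin 3) (Fin 3) ℝ := s • (B * rot α * B.transpose)

theorem transpose_mem {B : Matrix (Fin 3) (Fin 3) ℝ}
    (hB : B ∈ Matrix.orthogonalGroup (Fin 3) ℝ) :
    B.transpose ∈ Matrix.orthogonalGroup (Fin 3) ℝ := by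
  rw [Matrix.mem_orthogonalGroup_iff]
  have h : B.transpose * B = 1 := (Matrix.mem_orthogonalGroup_iff' (Fin 3) ℝ).1 hB
  simpa using h

theorem neg_mem' {B : Matrix (Fin 3) (Fin 3) ℝ}
    (hB : B ∈ Matrix.orthogonalGroup (Fin 3) ℝ) :
    -B ∈ Matrix.orthogonalGroup (Fin 3) ℝ := by
  rw [Matrix.mem_orthogonalGroup_iff]
  have h : B * B.transpose = 1 := (Matrix.mem_orthogonalGroup_iff (Fin 3) ℝ).1 hB
  simpa using h

theorem fam_mem {s : ℝ} (hs : s = 1 ∨ s = -1) {B : Matrix (Fin 3) (Fin 3) ℝ}
    (hB : B ∈ Matrix.orthogonalGroup (Fin 3) ℝ) (α : ℝ) :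
    fam s B α ∈ Matrix.orthogonalGroup (Fin 3) ℝ := by
  have h1 : B * rot α * B.transpose ∈ Matrix.orthogonalGroup (Fin 3) ℝ :=
    Submonoid.mul_mem _ (Submonoid.mul_mem _ hB (rot_mem α)) (transpose_mem hB)
  unfold fam
  rcases hs with rfl | rfl
  · rw [one_smul]
    exact h1
  · rw [neg_one_smul]
    exact neg_mem' h1

theorem fam_zero {s : ℝ} {B : Matrix (Fin 3) (Fin 3) ℝ}
    (hB : B ∈ Matrix.orthogonalGroup (Fin 3) ℝ) : fam s B 0 = s • 1 := by
  have h : B * B.transpose = 1 := (Matrix.mem_orthogonalGroup_iff (Fin 3) ℝ).1 hB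
  unfold fam
  rw [rot_zero, mul_one, h]

/-- `P + P (± x) + P (h x) = 0` only for `P = 0` -/
theorem injective_at_zero {s : ℝ} (hs : s = 1 ∨ s = -1) {h : Matrix (Fin 3) (Fin 3) ℝ}
    (hh : h ∈ Matrix.orthogonalGroup (Fin 3) ℝ) :
    Function.Injective (TT (s • (1 : Matrix (Fin 3) (Fin 3) ℝ)) h) := by
  rw [injective_iff_map_eq_zero]
  intro P hP
  -- values
  set F : E3 → ℝ := fun x => eval x.ofLp P with hF
  have hFc : Continuous F := by
    have h : Continuous fun x : E3 => x.ofLp := by
      apply continuous_pi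
      intro i
      exact (EuclideanSpace.proj (𝕜 := ℝ) i).continuous
    exact (MvPolynomial.continuous_eval P).comp h
  have hval : ∀ x, F x + F (s • x) + F (act h x) = 0 := by
    intro x
    have h1 := congrArg (eval x.ofLp) hP
    rw [TT_apply, map_add, map_add, eval_sb, eval_sb, map_zero, Matrix.smul_mulVec,
      Matrix.one_mulVec] at h1
    exact h1
  have heven : ∀ x, F (s • x) = F x := by
    intro x
    rcases hs with rfl | rfl
    · rw [one_smul]
    · set z : E3 := act h.transpose x with hz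
      have hzx : act h z = x := by
        have h1 : h * h.transpose = 1 := (Matrix.mem_orthogonalGroup_iff (Fin 3) ℝ).1 hh
        rw [hz, ← act_mul, h1, act_one]
      have hneg : act h ((-1 : ℝ) • z) = (-1 : ℝ) • x := by
        rw [← hzx]
        unfold act
        rw [WithLp.ofLp_smul, Matrix.mulVec_smul, WithLp.toLp_smul]
      have h1 := hval z
      have h2 := hval ((-1 : ℝ) • z)
      rw [hzx] at h1
      rw [hneg, smul_smul, neg_one_mul, neg_neg, one_smul] at h2
      linarith
  have hzero : ∀ x, F x = 0 := by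
    intro x
    have hK : IsCompact (closedBall (0 : E3) ‖x‖) := isCompact_closedBall _ _
    obtain ⟨y, hy, hmax⟩ := hK.exists_isMaxOn ⟨x, by simp⟩ (hFc.abs.continuousOn)
    have h1 := hval y
    rw [heven] at h1
    have h2 : act h y ∈ closedBall (0 : E3) ‖x‖ := by
      rw [mem_closedBall_zero_iff, norm_act hh]
      simpa using hy
    have h3 : |F (act h y)| ≤ |F y| := hmax h2
    have h4 : F (act h y) = -(2 * F y) := by linarith
    rw [h4, abs_neg, abs_mul, abs_two] at h3
    have h5 : |F y| ≤ 0 := by linarith [abs_nonneg (F y)]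
    have h6 : |F x| ≤ |F y| := hmax (by simp)
    exact abs_eq_zero.1 (le_antisymm (h6.trans h5) (abs_nonneg _))
  apply MvPolynomial.funext
  intro x
  rw [map_zero]
  exact hzero (WithLp.toLp 2 x)

/-- the zeros of an analytic function which does not vanish identically are countable -/
theorem zeros_countable {f : ℝ → ℝ} (hf : AnalyticOnNhd ℝ f univ) {x₀ : ℝ} (h0 : f x₀ ≠ 0) :
    {x | f x = 0}.Countable := by
  have hiso : ∀ x, ∀ᶠ z in 𝓝[≠] x, f z ≠ 0 := by
    intro x
    rcases (hf x trivial).eventually_eq_zero_or_eventually_ne_zero with h | h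
    · exfalso
      exact h0 (hf.eqOn_zero_of_preconnected_of_eventuallyEq_zero isPreconnected_univ
        (mem_univ x) h (mem_univ x₀))
    · exact h
  apply (HereditarilyLindelofSpace.isLindelof {x | f x = 0}).countable
  rw [discreteTopology_subtype_iff]
  intro x _
  rw [inf_principal_eq_bot]
  exact hiso x

open Classical in
/-- the generic matrix of the family -/
noncomputable def gfam (s : ℝ) (B : Matrix (Fin 3) (Fin 3) ℝ) :
    Matrix (Fin 3) (Fin 3) (MvPolynomial (Fin 2) ℝ) :=
  (C s : MvPolynomial (Fin 2) ℝ) • ((B.map C) * !![X 0, -X 1, 0; X 1, X 0, 0; 0, 0, 1] *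
    (B.transpose.map C))

theorem gfam_map (s : ℝ) (B : Matrix (Fin 3) (Fin 3) ℝ) (α : ℝ) :
    (gfam s B).map (eval ![Real.cos α, Real.sin α]) = fam s B α := by
  unfold gfam fam
  ext i j
  simp only [Matrix.map_apply, Matrix.smul_apply, Matrix.mul_apply, smul_eq_mul, map_mul, map_sum,
    eval_C]
  congr 1
  refine Finset.sum_congr rfl fun k _ => ?_
  congr 1
  refine Finset.sum_congr rfl fun l _ => ?_
  congr 1
  fin_cases l <;> fin_cases k <;> simp [rot]

/-- **Theorem A.**  Let `h` be an orthogonal matrix and let `g` run through all rotations about a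
fixed axis (or through all their products with `-1`).  For all but countably many angles there is
no splitting `A, g(A), h(A)` with a measurable set `A`, not even up to null sets. -/
theorem generic {s : ℝ} (hs : s = 1 ∨ s = -1) {B h : Matrix (Fin 3) (Fin 3) ℝ}
    (hB : B ∈ Matrix.orthogonalGroup (Fin 3) ℝ) (hh : h ∈ Matrix.orthogonalGroup (Fin 3) ℝ) :
    {α : ℝ | ∃ A, AESplit (fam s B α) h A}.Countable := by
  have hdet : ∀ (n : ℕ) (α : ℝ), eval ![Real.cos α, Real.sin α] (MM (gfam s B) (h.map C) n).det =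
      (MM (fam s B α) h n).det := by
    intro n α
    rw [← det_MM_map, gfam_map]
    congr 2
    ext i j
    simp
  have hsub : {α : ℝ | ∃ A, AESplit (fam s B α) h A} ⊆
      ⋃ n : ℕ, {α : ℝ | eval ![Real.cos α, Real.sin α] (MM (gfam s B) (h.map C) n).det = 0} := by
    rintro α ⟨A, hA⟩
    by_contra hcon
    simp only [mem_iUnion, mem_setOf_eq, not_exists] at hcon
    refine no_split (fam_mem hs hB α) hh (injective_of_det_ne_zero fun n => ?_) A hA
    rw [← hdet]
    exact hcon n
  refine Set.Countable.mono hsub (Set.countable_iUnion fun n => ?_)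
  apply zeros_countable (x₀ := 0)
  · intro α _
    have h1 : ∀ i, AnalyticAt ℝ (fun α : ℝ => (![Real.cos α, Real.sin α] : Fin 2 → ℝ) i) α := by
      intro i
      fin_cases i
      · exact Real.analyticAt_cos
      · exact Real.analyticAt_sin
    have h2 := AnalyticAt.aeval_mvPolynomial h1 ((MM (gfam s B) (h.map C) n).det)
    simpa [MvPolynomial.aeval_eq_eval] using h2
  · rw [hdet, fam_zero hB]
    exact det_ne_zero_of_injective (injective_at_zero hs hh) n

end Pool.Agent.Sph
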