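import Pool.Agent.Lib_MP_8c2fb0_lc.Alg

/-!
# The measure part: if `TT g h` is injective there is no measurable splitting
-/

open MeasureTheory MvPolynomial Metric
open scoped Pointwise

namespace Pool.Agent.Sph

/-- the Euclidean space -/
abbrev E3 := EuclideanSpace ℝ (Fin 3)

/-- the unit sphere -/
abbrev S2 : Type := sphere (0 : E3) 1

/-- the rotation invariant surface measure of the unit sphere -/
noncomputable def surf : Measure S2 := (volume : Measure E3).toSphere

/-- the linear map with matrix `g` -/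
noncomputable def act (g : Matrix (Fin 3) (Fin 3) ℝ) (x : E3) : E3 :=
  WithLp.toLp 2 (g.mulVec x.ofLp)

/-- the image `g(A)` of a subset `A` of the sphere -/
def im (g : Matrix (Fin 3) (Fin 3) ℝ) (A : Set S2) : Set S2 := {x | ∃ a ∈ A, act g a = x}

/-- exactly one of `p`, `q`, `r` holds -/
def One3 (p q r : Prop) : Prop := (p ∧ ¬q ∧ ¬r) ∨ (¬p ∧ q ∧ ¬r) ∨ (¬p ∧ ¬q ∧ r)

/-- `A` is Lebesgue measurable and `A`, `g(A)`, `h(A)` form a partition of the sphere up to a null
set -/
def AESplit (g h : Matrix (Fin 3) (Fin 3) ℝ) (A : Set S2) : Prop :=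
  NullMeasurableSet A surf ∧ ∀ᵐ x ∂surf, One3 (x ∈ A) (x ∈ im g A) (x ∈ im h A)

theorem act_mul (g h : Matrix (Fin 3) (Fin 3) ℝ) (x : E3) : act (g * h) x = act g (act h x) := by
  unfold act
  rw [← Matrix.mulVec_mulVec]

theorem act_one (x : E3) : act 1 x = x := by
  unfold act
  rw [Matrix.one_mulVec]

theorem norm_act {g : Matrix (Fin 3) (Fin 3) ℝ} (hg : g ∈ Matrix.orthogonalGroup (Fin 3) ℝ)
    (x : E3) : ‖act g x‖ = ‖x‖ := by
  have h1 : g.transpose * g = 1 := by
    have := (Matrix.mem_orthogonalGroup_iff' (Fin 3) ℝ).1 hg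
    exact this
  have h2 : ∀ y : E3, ‖y‖ ^ 2 = y.ofLp ⬝ᵥ y.ofLp := by
    intro y
    rw [EuclideanSpace.norm_sq_eq]
    simp [dotProduct, sq]
  have h3 : ‖act g x‖ ^ 2 = ‖x‖ ^ 2 := by
    rw [h2, h2]
    unfold act
    change (g.mulVec x.ofLp) ⬝ᵥ (g.mulVec x.ofLp) = _
    rw [Matrix.dotProduct_mulVec, Matrix.vecMul_mulVec, ← Matrix.dotProduct_mulVec]
    rw [h1, Matrix.one_mulVec]
  exact (sq_eq_sq₀ (norm_nonneg _) (norm_nonneg _)).1 h3

/-- an orthogonal matrix as a linear isometry -/
noncomputable def iso (g : Matrix.orthogonalGroup (Fin 3) ℝ) : E3 ≃ₗᵢ[ℝ] E3 where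
  toFun := act g.1
  invFun := act g.1.transpose
  left_inv x := by
    have h : g.1.transpose * g.1 = 1 := (Matrix.mem_orthogonalGroup_iff' (Fin 3) ℝ).1 g.2
    rw [← act_mul, h, act_one]
  right_inv x := by
    have h : g.1 * g.1.transpose = 1 := (Matrix.mem_orthogonalGroup_iff (Fin 3) ℝ).1 g.2
    rw [← act_mul, h, act_one]
  map_add' x y := by
    unfold act
    rw [WithLp.ofLp_add, Matrix.mulVec_add, WithLp.toLp_add]
  map_smul' c x := by
    unfold act
    rw [WithLp.ofLp_smul, Matrix.mulVec_smul, WithLp.toLp_smul]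
    rfl
  norm_map' x := norm_act g.2 x

theorem iso_apply (g : Matrix.orthogonalGroup (Fin 3) ℝ) (x : E3) : iso g x = act g.1 x := rfl

/-- the action on the sphere -/
noncomputable def sact (g : Matrix.orthogonalGroup (Fin 3) ℝ) : S2 ≃ₜ S2 where
  toFun x := ⟨iso g x, by simp⟩
  invFun x := ⟨(iso g).symm x, by simp⟩
  left_inv x := by ext1; simp
  right_inv x := by ext1; simp
  continuous_toFun := by
    exact ((iso g).continuous.comp continuous_subtype_val).subtype_mk _
  continuous_invFun := by
    exact ((iso g).symm.continuous.comp continuous_subtype_val).subtype_mk _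

theorem coe_sact (g : Matrix.orthogonalGroup (Fin 3) ℝ) (x : S2) :
    ((sact g x : S2) : E3) = act g.1 x := rfl

theorem mem_im (g : Matrix.orthogonalGroup (Fin 3) ℝ) (A : Set S2) (x : S2) :
    x ∈ im g.1 A ↔ (sact g).symm x ∈ A := by
  unfold im
  constructor
  · rintro ⟨a, ha, hax⟩
    have : x = sact g a := by ext1; rw [coe_sact, hax]
    rw [this]
    simpa using ha
  · intro h
    refine ⟨_, h, ?_⟩
    rw [← coe_sact]
    simp

instance : IsFiniteMeasure surf := by unfold surf; infer_instance

theorem surf_univ_ne_zero : surf Set.univ ≠ 0 := by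
  unfold surf
  rw [Measure.toSphere_apply_univ]
  have h1 : (0 : ENNReal) < volume (ball (0 : E3) 1) := measure_ball_pos volume (0 : E3) one_pos
  simp only [finrank_euclideanSpace, Fintype.card_fin, ne_eq, mul_eq_zero, not_or]
  exact ⟨by norm_num, h1.ne'⟩

theorem sact_measurePreserving (g : Matrix.orthogonalGroup (Fin 3) ℝ) :
    MeasurePreserving (sact g) surf surf := by
  refine ⟨(sact g).continuous.measurable, ?_⟩
  ext s hs
  rw [Measure.map_apply (sact g).continuous.measurable hs]
  unfold surf
  rw [Measure.toSphere_apply' _ hs,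
    Measure.toSphere_apply' _ ((sact g).continuous.measurable hs)]
  congr 1
  have hpre := (iso g).measurePreserving.measure_preimage_emb
    (iso g).toHomeomorph.measurableEmbedding (Set.Ioo (0 : ℝ) 1 • (((↑) : S2 → E3) '' s))
  refine Eq.trans ?_ hpre
  congr 1
  ext x
  simp only [Set.mem_smul, Set.mem_image, Set.mem_preimage]
  constructor
  · rintro ⟨r, hr, y, ⟨z, hz, rfl⟩, rfl⟩
    exact ⟨r, hr, _, ⟨sact g z, hz, rfl⟩, by rw [map_smul]; rfl⟩
  · rintro ⟨r, hr, y, ⟨z, hz, rfl⟩, hx⟩
    refine ⟨r, hr, _, ⟨(sact g).symm z, by simpa using hz, rfl⟩, ?_⟩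
    apply (iso g).injective
    rw [← hx, map_smul]
    congr 1
    have := coe_sact g ((sact g).symm z)
    simp only [Homeomorph.apply_symm_apply] at this
    rw [iso_apply, ← this]

/-- values of a polynomial on the sphere -/
noncomputable def ev (P : MvPolynomial (Fin 3) ℝ) (x : S2) : ℝ := eval (fun i => (x : E3) i) P

theorem ev_continuous (P : MvPolynomial (Fin 3) ℝ) : Continuous (ev P) := by
  unfold ev
  have h : Continuous fun x : S2 => (fun i => (x : E3) i : Fin 3 → ℝ) := by
    apply continuous_pi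
    intro i
    exact (EuclideanSpace.proj (𝕜 := ℝ) i).continuous.comp continuous_subtype_val
  exact (MvPolynomial.continuous_eval P).comp h

theorem ev_sact (g : Matrix.orthogonalGroup (Fin 3) ℝ) (P : MvPolynomial (Fin 3) ℝ) (x : S2) :
    ev P (sact g x) = ev (sb g.1 P) x := by
  unfold ev
  rw [eval_sb]
  rfl

theorem integrable_of_continuous {f : S2 → ℝ} (hf : Continuous f) (μ : Measure S2)
    [IsFiniteMeasure μ] : Integrable f μ := by
  have : CompactSpace S2 := isCompact_iff_compactSpace.1 (isCompact_sphere _ _)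
  exact hf.integrable_of_hasCompactSupport (HasCompactSupport.of_compactSpace f)

/-- a finite measure on the sphere is determined by the integrals of the polynomials -/
theorem measure_ext {μ ν : Measure S2} [IsFiniteMeasure μ] [IsFiniteMeasure ν]
    (h : ∀ P, ∫ x, ev P x ∂μ = ∫ x, ev P x ∂ν) : μ = ν := by
  have : CompactSpace S2 := isCompact_iff_compactSpace.1 (isCompact_sphere _ _)
  let c : Fin 3 → C(S2, ℝ) := fun i => ⟨fun x => (x : E3) i,
    (EuclideanSpace.proj (𝕜 := ℝ) i).continuous.comp continuous_subtype_val⟩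
  let φ : MvPolynomial (Fin 3) ℝ →ₐ[ℝ] C(S2, ℝ) := aeval c
  have hφ : ∀ P x, φ P x = ev P x := by
    intro P x
    unfold ev
    induction P using MvPolynomial.induction_on with
    | C a => simp [φ]
    | add p q hp hq => rw [map_add, map_add, ContinuousMap.add_apply, hp, hq]
    | mul_X p i hp =>
      rw [map_mul, map_mul, ContinuousMap.mul_apply, hp, eval_X]
      simp [φ, c]
  have hsep : φ.range.SeparatesPoints := by
    intro x y hxy
    have : ∃ i, (x : E3) i ≠ (y : E3) i := by
      by_contra hcon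
      push Not at hcon
      apply hxy
      ext i
      exact hcon i
    obtain ⟨i, hi⟩ := this
    refine ⟨c i, ⟨c i, ⟨X i, ?_⟩, rfl⟩, hi⟩
    simp [φ]
  apply ext_of_forall_integral_eq_of_IsFiniteMeasure
  intro f
  have key : ∀ ε : ℝ, 0 < ε → |∫ x, f x ∂μ - ∫ x, f x ∂ν| ≤
      ε * (μ.real Set.univ + ν.real Set.univ) := by
    intro ε hε
    obtain ⟨⟨q, P, hP⟩, hq⟩ := ContinuousMap.exists_mem_subalgebra_near_continuous_of_separatesPoints
      φ.range hsep f f.continuous ε hε
    have hq' : ∀ x, ‖ev P x - f x‖ ≤ ε := by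
      intro x
      have h1 := hq x
      simp only at h1
      rw [← hP] at h1
      change ‖φ P x - f x‖ < ε at h1
      rw [hφ] at h1
      exact h1.le
    have hb : ∀ (ρ : Measure S2) [IsFiniteMeasure ρ], |∫ x, ev P x ∂ρ - ∫ x, f x ∂ρ| ≤
        ε * ρ.real Set.univ := by
      intro ρ _
      rw [← integral_sub (integrable_of_continuous (ev_continuous P) ρ)
        (integrable_of_continuous f.continuous ρ)]
      exact norm_integral_le_of_norm_le_const (Filter.Eventually.of_forall hq')
    have h1 := hb μ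
    have h2 := hb ν
    rw [h P] at h1
    rw [abs_le] at h1 h2 ⊢
    constructor <;> linarith [h1.1, h1.2, h2.1, h2.2]
  by_contra hne
  have hpos : 0 < |∫ x, f x ∂μ - ∫ x, f x ∂ν| := abs_pos.2 (sub_ne_zero.2 hne)
  set M := μ.real Set.univ + ν.real Set.univ with hM
  have hM0 : 0 ≤ M := by positivity
  have h1 := key (|∫ x, f x ∂μ - ∫ x, f x ∂ν| / (2 * (M + 1))) (by positivity)
  have h2 : |∫ x, f x ∂μ - ∫ x, f x ∂ν| / (2 * (M + 1)) * M < |∫ x, f x ∂μ - ∫ x, f x ∂ν| := by
    rw [div_mul_eq_mul_div, div_lt_iff₀ (by positivity)]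
    nlinarith
  linarith

theorem integral_indicator_sact (g : Matrix.orthogonalGroup (Fin 3) ℝ) (A : Set S2)
    (P : MvPolynomial (Fin 3) ℝ) :
    ∫ x, (im g.1 A).indicator (ev P) x ∂surf = ∫ x, A.indicator (ev (sb g.1 P)) x ∂surf := by
  rw [← (sact_measurePreserving g).integral_comp (sact g).measurableEmbedding]
  apply integral_congr_ae
  refine Filter.Eventually.of_forall fun x => ?_
  simp only
  have h : sact g x ∈ im g.1 A ↔ x ∈ A := by rw [mem_im]; simp
  by_cases hx : x ∈ A
  · rw [Set.indicator_of_mem hx, Set.indicator_of_mem (h.2 hx), ev_sact]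
  · rw [Set.indicator_of_notMem hx, Set.indicator_of_notMem (fun h' => hx (h.1 h'))]

theorem integral_sb (g : Matrix.orthogonalGroup (Fin 3) ℝ) (P : MvPolynomial (Fin 3) ℝ) :
    ∫ x, ev (sb g.1 P) x ∂surf = ∫ x, ev P x ∂surf := by
  have h := (sact_measurePreserving g).integral_comp (sact g).measurableEmbedding (ev P)
  simpa only [ev_sact] using h

theorem sum3 {μ : Measure S2} {u v w : S2 → ℝ} (hu : Integrable u μ) (hv : Integrable v μ)
    (hw : Integrable w μ) : ∫ x, (u x + v x + w x) ∂μ =
    ∫ x, u x ∂μ + ∫ x, v x ∂μ + ∫ x, w x ∂μ := by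
  have h1 : ∫ x, (u x + v x + w x) ∂μ = ∫ x, (u x + v x) ∂μ + ∫ x, w x ∂μ :=
    integral_add (hu.add hv) hw
  rw [h1, integral_add hu hv]

theorem no_split {g h : Matrix (Fin 3) (Fin 3) ℝ} (hg : g ∈ Matrix.orthogonalGroup (Fin 3) ℝ)
    (hh : h ∈ Matrix.orthogonalGroup (Fin 3) ℝ) (hT : Function.Injective (TT g h)) (A : Set S2) :
    ¬ AESplit g h A := by
  rintro ⟨hA, hae⟩
  -- reduction of the integrals
  have hmeas : ∀ g' : Matrix.orthogonalGroup (Fin 3) ℝ, NullMeasurableSet (im g'.1 A) surf := by
    intro g'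
    have h1 : im g'.1 A = (sact g').symm ⁻¹' A := by
      ext x; rw [mem_im]; rfl
    rw [h1]
    have h2 : MeasurePreserving (sact g').symm surf surf :=
      (sact_measurePreserving g').symm (sact g').toMeasurableEquiv
    exact hA.preimage h2.quasiMeasurePreserving
  have hint : ∀ (B : Set S2) (P : MvPolynomial (Fin 3) ℝ), NullMeasurableSet B surf →
      Integrable (B.indicator (ev P)) surf := by
    intro B P hB
    exact (integrable_of_continuous (ev_continuous P) surf).indicator₀ hB
  have key : ∀ P, ∫ x, A.indicator (ev (TT g h P)) x ∂surf = (1 / 3) * ∫ x, ev (TT g h P) x ∂surf := by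
    intro P
    have e1 : ∫ x, ev P x ∂surf = ∫ x, A.indicator (ev P) x ∂surf +
        ∫ x, (im g A).indicator (ev P) x ∂surf + ∫ x, (im h A).indicator (ev P) x ∂surf := by
      refine Eq.trans ?_ (sum3 (hint A P hA) (hint (im g A) P (hmeas ⟨g, hg⟩))
        (hint (im h A) P (hmeas ⟨h, hh⟩)))
      apply integral_congr_ae
      filter_upwards [hae] with x hx
      rcases hx with ⟨h1, h2, h3⟩ | ⟨h1, h2, h3⟩ | ⟨h1, h2, h3⟩
      · rw [Set.indicator_of_mem h1, Set.indicator_of_notMem h2, Set.indicator_of_notMem h3]; ring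
      · rw [Set.indicator_of_notMem h1, Set.indicator_of_mem h2, Set.indicator_of_notMem h3]; ring
      · rw [Set.indicator_of_notMem h1, Set.indicator_of_notMem h2, Set.indicator_of_mem h3]; ring
    rw [integral_indicator_sact ⟨g, hg⟩, integral_indicator_sact ⟨h, hh⟩] at e1
    have e2 : ∫ x, A.indicator (ev (TT g h P)) x ∂surf = ∫ x, A.indicator (ev P) x ∂surf +
        ∫ x, A.indicator (ev (sb g P)) x ∂surf + ∫ x, A.indicator (ev (sb h P)) x ∂surf := by
      refine Eq.trans ?_ (sum3 (hint A P hA) (hint A (sb g P) hA) (hint A (sb h P) hA))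
      apply integral_congr_ae
      refine Filter.Eventually.of_forall fun x => ?_
      have e3 : ∀ x, ev (TT g h P) x = ev P x + ev (sb g P) x + ev (sb h P) x := by
        intro x
        unfold ev
        rw [TT_apply, map_add, map_add]
      by_cases hx : x ∈ A
      · simp only [Set.indicator_of_mem hx, e3]
      · simp only [Set.indicator_of_notMem hx]; ring
    have e4 : ∫ x, ev (TT g h P) x ∂surf = ∫ x, ev P x ∂surf + ∫ x, ev (sb g P) x ∂surf +
        ∫ x, ev (sb h P) x ∂surf := by
      refine Eq.trans ?_ (sum3 (integrable_of_continuous (ev_continuous P) surf)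
        (integrable_of_continuous (ev_continuous (sb g P)) surf)
        (integrable_of_continuous (ev_continuous (sb h P)) surf))
      apply integral_congr_ae
      refine Filter.Eventually.of_forall fun x => ?_
      simp only
      unfold ev
      rw [TT_apply, map_add, map_add]
    have e5 := integral_sb ⟨g, hg⟩ P
    have e6 := integral_sb ⟨h, hh⟩ P
    simp only at e5 e6 e1
    rw [e4, e5, e6, e2, ← e1]
    ring
  have hsurj := TT_surjective hT
  have hrestrict : surf.restrict A = (ENNReal.ofReal (1 / 3)) • surf := by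
    have : IsFiniteMeasure ((ENNReal.ofReal (1 / 3)) • surf) := by
      constructor
      rw [Measure.smul_apply, smul_eq_mul]
      exact ENNReal.mul_lt_top ENNReal.ofReal_lt_top (measure_lt_top _ _)
    apply measure_ext
    intro Q
    obtain ⟨P, rfl⟩ := hsurj Q
    rw [integral_smul_measure, ENNReal.toReal_ofReal (by norm_num), smul_eq_mul, ← key P,
      integral_indicator₀ hA]
  have hAA : surf A = ENNReal.ofReal (1 / 3) * surf A := by
    have h1 := congrArg (fun m : Measure S2 => m A) hrestrict
    simp only [Measure.smul_apply, smul_eq_mul] at h1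
    rw [Measure.restrict_apply_self] at h1
    exact h1
  have hA0 : surf A = 0 := by
    by_contra hne
    have hfin : surf A ≠ ⊤ := measure_ne_top _ _
    have h2 : (surf A).toReal = 1 / 3 * (surf A).toReal := by
      have := congrArg ENNReal.toReal hAA
      rwa [ENNReal.toReal_mul, ENNReal.toReal_ofReal (by norm_num)] at this
    have h3 : 0 < (surf A).toReal := ENNReal.toReal_pos hne hfin
    linarith
  have huniv : surf Set.univ = 0 := by
    have h1 := congrArg (fun m : Measure S2 => m Set.univ) hrestrict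
    simp only [Measure.smul_apply, smul_eq_mul, Measure.restrict_apply_univ] at h1
    rw [hA0] at h1
    rcases mul_eq_zero.1 h1.symm with h2 | h2
    · simp at h2
    · exact h2
  exact surf_univ_ne_zero huniv

end Pool.Agent.Sph
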