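import Pool.Agent.Lib_MP_8c2fb0_lc.Meas

/-!
# Explicit pairs: reduction modulo a prime
-/

open MeasureTheory MvPolynomial Metric Set Filter Topology

namespace Pool.Agent.Sph

section Unit

variable {p : ℕ} [hp : Fact p.Prime] {Q : Type*} [Group Q] [Finite Q]

theorem three_ne (hp3 : p ≠ 3) : (3 : ZMod p) ≠ 0 := by
  intro h
  have h8 : ((3 : ℕ) : ZMod p) = 0 := by exact_mod_cast h
  rw [ZMod.natCast_eq_zero_iff] at h8
  exact hp3 ((Nat.prime_dvd_prime_iff_eq hp.out Nat.prime_three).1 h8)

/-- left multiplication by `1 + a + b` in the group algebra over `F_p` of a `p`-group is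
injective -/
theorem conv_injective (hQ : IsPGroup p Q) (a b : Q) (hp3 : p ≠ 3) (x : Q → ZMod p)
    (hx : ∀ q, x q + x (a⁻¹ * q) + x (b⁻¹ * q) = 0) : x = 0 := by
  classical
  let K : AddSubgroup (Q → ZMod p) :=
    { carrier := {y | ∀ q, y q + y (a⁻¹ * q) + y (b⁻¹ * q) = 0}
      add_mem' := fun {y z} hy hz q => by
        have h1 := hy q
        have h2 := hz q
        simp only [Pi.add_apply]
        linear_combination h1 + h2
      zero_mem' := fun q => by simp
      neg_mem' := fun {y} hy q => by
        have h1 := hy q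
        simp only [Pi.neg_apply]
        linear_combination -h1 }
  have hmem : ∀ y : Q → ZMod p, y ∈ K ↔ ∀ q, y q + y (a⁻¹ * q) + y (b⁻¹ * q) = 0 :=
    fun y => Iff.rfl
  have : Finite K := inferInstance
  let act : MulAction Q K :=
    { smul := fun r y => ⟨fun q => y.1 (q * r), fun q => by
        have := y.2 (q * r)
        simp only [← mul_assoc] at this
        exact this⟩
      one_smul := fun y => by
        apply Subtype.ext
        funext q
        change y.1 (q * 1) = y.1 q
        rw [mul_one]
      mul_smul := fun r s y => by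
        apply Subtype.ext
        funext q
        change y.1 (q * (r * s)) = y.1 (q * r * s)
        rw [mul_assoc] }
  by_contra hx0
  have hcard : p ∣ Nat.card K := by
    have h2 : addOrderOf (⟨x, hx⟩ : K) = p := by
      apply addOrderOf_eq_prime
      · apply Subtype.ext
        funext q
        change (p • x) q = 0
        rw [Pi.smul_apply, nsmul_eq_mul, CharP.cast_eq_zero, zero_mul]
      · intro h
        exact hx0 (congrArg Subtype.val h)
    have h3 := addOrderOf_dvd_natCard (⟨x, hx⟩ : K)
    rwa [h2] at h3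
  have hfix0 : (0 : K) ∈ MulAction.fixedPoints Q K := by
    intro q
    apply Subtype.ext
    funext r
    rfl
  obtain ⟨y, hy, hy0⟩ := hQ.exists_fixed_point_of_prime_dvd_card_of_fixed_point K hcard hfix0
  have hyc : ∀ q : Q, y.1 q = y.1 1 := by
    intro q
    have h1 := congrArg Subtype.val (hy q)
    have h2 := congrFun h1 1
    change y.1 (1 * q) = y.1 1 at h2
    rwa [one_mul] at h2
  have h4 := y.2 1
  rw [hyc (a⁻¹ * 1), hyc (b⁻¹ * 1)] at h4
  have h6 : (3 : ZMod p) * y.1 1 = 0 := by
    have : (3 : ZMod p) * y.1 1 = y.1 1 + y.1 1 + y.1 1 := by ring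
    rw [this]
    exact h4
  have h9 : y.1 1 = 0 := (mul_eq_zero.1 h6).resolve_left (three_ne hp3)
  apply hy0
  apply Subtype.ext
  funext q
  change (0 : ZMod p) = y.1 q
  rw [hyc q, h9]

theorem conv_unit (hQ : IsPGroup p Q) (a b : Q) (hp3 : p ≠ 3) [DecidableEq Q] :
    ∃ f : Q → ZMod p, ∀ q, f q + f (a⁻¹ * q) + f (b⁻¹ * q) = if q = 1 then 1 else 0 := by
  let L : (Q → ZMod p) →ₗ[ZMod p] (Q → ZMod p) :=
    { toFun := fun f q => f q + f (a⁻¹ * q) + f (b⁻¹ * q)
      map_add' := fun f g => by
        funext q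
        simp only [Pi.add_apply]
        ring
      map_smul' := fun c f => by
        funext q
        simp only [Pi.smul_apply, smul_eq_mul, RingHom.id_apply]
        ring }
  have hinj : Function.Injective L := by
    rw [injective_iff_map_eq_zero]
    intro x hx
    exact conv_injective hQ a b hp3 x fun q => congrFun hx q
  have hsurj := LinearMap.injective_iff_surjective.1 hinj
  obtain ⟨f, hf⟩ := hsurj fun q => if q = 1 then 1 else 0
  exact ⟨f, fun q => congrFun hf q⟩

/-- If the two matrices lie in a finite `p`-group of matrices over a field of characteristic `p`,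
`p ≠ 3`, then `TT` is injective. -/
theorem injective_of_pgroup {k : Type*} [Field k] [CharP k p] (hQ : IsPGroup p Q) (hp3 : p ≠ 3)
    (ρ : Q →* Matrix (Fin 3) (Fin 3) k) (a b : Q) : Function.Injective (TT (ρ a) (ρ b)) := by
  classical
  have : Fintype Q := Fintype.ofFinite Q
  obtain ⟨f, hf⟩ := conv_unit hQ a b hp3
  rw [injective_iff_map_eq_zero]
  intro P hP
  let c : ZMod p →+* k := ZMod.castHom dvd_rfl k
  have h1 : ∑ q, c (f q) • sb (ρ q) (TT (ρ a) (ρ b) P) = P := by
    have h2 : ∀ q, c (f q) • sb (ρ q) (TT (ρ a) (ρ b) P) = c (f q) • sb (ρ q) P +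
        c (f q) • sb (ρ (a * q)) P + c (f q) • sb (ρ (b * q)) P := by
      intro q
      rw [TT_apply, map_add, map_add, map_mul, map_mul, sb_mul, sb_mul, smul_add, smul_add]
    simp only [h2]
    rw [Finset.sum_add_distrib, Finset.sum_add_distrib]
    have h3 : ∀ g : Q, ∑ q, c (f q) • sb (ρ (g * q)) P = ∑ q, c (f (g⁻¹ * q)) • sb (ρ q) P := by
      intro g
      refine Fintype.sum_equiv (Equiv.mulLeft g) _ _ fun q => ?_
      simp only [Equiv.coe_mulLeft]
      rw [inv_mul_cancel_left]
    rw [h3 a, h3 b, ← Finset.sum_add_distrib, ← Finset.sum_add_distrib]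
    have h4 : ∀ q, c (f q) • sb (ρ q) P + c (f (a⁻¹ * q)) • sb (ρ q) P +
        c (f (b⁻¹ * q)) • sb (ρ q) P = if q = 1 then P else 0 := by
      intro q
      rw [← add_smul, ← add_smul, ← map_add, ← map_add, hf q]
      by_cases hq : q = 1
      · rw [if_pos hq, if_pos hq, map_one, one_smul, hq, map_one, sb_one]
      · rw [if_neg hq, if_neg hq, map_zero, zero_smul]
    simp only [h4]
    rw [Finset.sum_ite_eq']
    simp
  rw [← h1, hP]
  simp

end Unit

/-- **Place criterion.**  Let `R` be a commutative ring with an embedding `i` into `ℂ` and a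
homomorphism `φ` to a field `k`; let `g = B G B⁻¹`, `h = B H B⁻¹` with matrices `G`, `H` over `R`
and `B` over `ℂ`.  If the operator `P ↦ P + P ∘ φ(G) + P ∘ φ(H)` is injective on `k[x, y, z]`,
there is no measurable splitting. -/
theorem no_split_of_place {R k : Type*} [CommRing R] [Field k] {i : R →+* ℂ}
    (hi : Function.Injective i) (φ : R →+* k) {G H : Matrix (Fin 3) (Fin 3) R}
    {B B' : Matrix (Fin 3) (Fin 3) ℂ} (hB : B * B' = 1) {g h : Matrix (Fin 3) (Fin 3) ℝ}
    (hg : g ∈ Matrix.orthogonalGroup (Fin 3) ℝ) (hh : h ∈ Matrix.orthogonalGroup (Fin 3) ℝ)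
    (hgG : g.map Complex.ofRealHom = B * G.map i * B')
    (hhH : h.map Complex.ofRealHom = B * H.map i * B')
    (hT : Function.Injective (TT (G.map φ) (H.map φ))) (A : Set S2) : ¬ AESplit g h A := by
  apply no_split hg hh
  have h1 : Function.Injective (TT (G.map i) (H.map i)) := injective_of_place hi φ hT
  have h2 := TT_conj hB h1
  rw [← hgG, ← hhH] at h2
  rw [injective_iff_map_eq_zero] at h2 ⊢
  intro P hP
  apply MvPolynomial.map_injective Complex.ofRealHom Complex.ofReal_injective
  rw [map_zero]
  apply h2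
  rw [← map_TT, hP, map_zero]

end Pool.Agent.Sph
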