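import Pool.Agent.Lib_MP_8c2fb0_lc.Place

/-!
# Rational pairs
-/

open MeasureTheory MvPolynomial Metric Set Filter Topology

namespace Pool.Agent.Sph

/-- the rational matrix `m⁻¹ G` as a real matrix -/
noncomputable def rat (m : ℤ) (G : Matrix (Fin 3) (Fin 3) ℤ) : Matrix (Fin 3) (Fin 3) ℝ :=
  (m : ℝ)⁻¹ • G.map (Int.castRingHom ℝ)

theorem no_split_rat {p : ℕ} [hp : Fact p.Prime] {m : ℤ} (hm : ¬ (p : ℤ) ∣ m)
    {G H : Matrix (Fin 3) (Fin 3) ℤ} (hg : rat m G ∈ Matrix.orthogonalGroup (Fin 3) ℝ)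
    (hh : rat m H ∈ Matrix.orthogonalGroup (Fin 3) ℝ)
    (hT : Function.Injective (TT ((m : ZMod p)⁻¹ • G.map (Int.castRingHom (ZMod p)))
      ((m : ZMod p)⁻¹ • H.map (Int.castRingHom (ZMod p))))) (A : Set S2) :
    ¬ AESplit (rat m G) (rat m H) A := by
  have hm0 : m ≠ 0 := by
    rintro rfl
    exact hm (dvd_zero _)
  have hmp : (m : ZMod p) ≠ 0 := by
    intro h
    exact hm ((ZMod.intCast_zmod_eq_zero_iff_dvd m p).1 h)
  let R := Localization.Away (m : ℤ)
  have u1 : IsUnit (Int.castRingHom ℂ m) := by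
    rw [isUnit_iff_ne_zero]
    simpa using hm0
  have u2 : IsUnit (Int.castRingHom (ZMod p) m) := by
    rw [isUnit_iff_ne_zero]
    simpa using hmp
  let i : R →+* ℂ := IsLocalization.Away.lift m u1
  let φ : R →+* ZMod p := IsLocalization.Away.lift m u2
  have hia : ∀ a : ℤ, i (algebraMap ℤ R a) = a := fun a => IsLocalization.Away.lift_eq m u1 a
  have hφa : ∀ a : ℤ, φ (algebraMap ℤ R a) = a := fun a => IsLocalization.Away.lift_eq m u2 a
  have hi : Function.Injective i := by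
    have h1 : Function.Injective (algebraMap ℤ R) := by
      apply IsLocalization.injective (M := Submonoid.powers m)
      exact powers_le_nonZeroDivisors_of_noZeroDivisors hm0
    have h2 : Function.Injective (Int.castRingHom ℂ) := Int.cast_injective
    apply (IsLocalization.lift_injective_iff (M := Submonoid.powers m) _).2
    intro x y
    rw [h1.eq_iff, h2.eq_iff]
  set v : R := IsLocalization.Away.invSelf m with hv
  have hv1 : algebraMap ℤ R m * v = 1 := IsLocalization.Away.mul_invSelf m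
  have hiv : i v = (m : ℂ)⁻¹ := by
    have h1 := congrArg i hv1
    rw [map_mul, map_one, hia] at h1
    exact eq_inv_of_mul_eq_one_right h1
  have hφv : φ v = (m : ZMod p)⁻¹ := by
    have h1 := congrArg φ hv1
    rw [map_mul, map_one, hφa] at h1
    exact eq_inv_of_mul_eq_one_right h1
  have key : ∀ G : Matrix (Fin 3) (Fin 3) ℤ, (rat m G).map Complex.ofRealHom =
      1 * (v • G.map (algebraMap ℤ R)).map i * 1 := by
    intro G
    rw [one_mul, mul_one]
    ext a b
    simp only [rat, Matrix.map_apply, Matrix.smul_apply, smul_eq_mul, map_mul, hiv, hia]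
    simp
  have key2 : ∀ G : Matrix (Fin 3) (Fin 3) ℤ, (v • G.map (algebraMap ℤ R)).map φ =
      (m : ZMod p)⁻¹ • G.map (Int.castRingHom (ZMod p)) := by
    intro G
    ext a b
    simp only [Matrix.map_apply, Matrix.smul_apply, smul_eq_mul, map_mul, hφv, hφa]
    simp
  refine no_split_of_place hi φ (mul_one 1) hg hh (key G) (key H) ?_ A
  rw [key2, key2]
  exact hT

/-- reduction modulo `2` of a rational orthogonal matrix is invertible -/
theorem sb_injective_of_rat {m : ℤ} (hm : Odd m) {G : Matrix (Fin 3) (Fin 3) ℤ}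
    (hg : rat m G ∈ Matrix.orthogonalGroup (Fin 3) ℝ) :
    ∀ P : MvPolynomial (Fin 3) (ZMod 2), sb (G.map (Int.castRingHom (ZMod 2))) P = 0 → P = 0 := by
  have hm0 : (m : ℝ) ≠ 0 := by
    rcases hm with ⟨k, rfl⟩
    intro h
    have : (2 * k + 1 : ℤ) = 0 := by exact_mod_cast h
    omega
  have h1 : rat m G * (rat m G).transpose = 1 := (Matrix.mem_orthogonalGroup_iff (Fin 3) ℝ).1 hg
  have h2 : G * G.transpose = (m ^ 2) • (1 : Matrix (Fin 3) (Fin 3) ℤ) := by
    ext a b
    have h3 := congrFun (congrFun h1 a) b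
    simp only [rat, Matrix.mul_apply, Matrix.transpose_apply, Matrix.smul_apply,
      Matrix.map_apply, smul_eq_mul] at h3
    have h4 : ∑ j, (G a j : ℝ) * G b j = (m : ℝ) ^ 2 * (1 : Matrix (Fin 3) (Fin 3) ℝ) a b := by
      rw [← h3, Finset.mul_sum]
      refine Finset.sum_congr rfl fun j _ => ?_
      simp only [eq_intCast]
      field_simp
    rw [Matrix.mul_apply, Matrix.smul_apply]
    simp only [Matrix.transpose_apply, smul_eq_mul]
    have h5 : (1 : Matrix (Fin 3) (Fin 3) ℝ) a b = ((1 : Matrix (Fin 3) (Fin 3) ℤ) a b : ℤ) := by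
      simp [Matrix.one_apply]
    rw [h5] at h4
    exact_mod_cast h4
  have h3 : G.map (Int.castRingHom (ZMod 2)) * G.transpose.map (Int.castRingHom (ZMod 2)) = 1 := by
    rw [← Matrix.map_mul, h2]
    have hm2 : ((m : ℤ) : ZMod 2) = 1 := by
      rcases hm with ⟨k, rfl⟩
      push_cast
      have : (2 : ZMod 2) = 0 := by decide
      rw [this, zero_mul, zero_add]
    ext a b
    rw [Matrix.map_apply, Matrix.smul_apply, smul_eq_mul, Matrix.one_apply, Matrix.one_apply]
    by_cases hab : a = b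
    · simp [hab, hm2]
    · simp [hab]
  intro P hP
  have h4 := sb_mul (G.map (Int.castRingHom (ZMod 2)))
    (G.transpose.map (Int.castRingHom (ZMod 2))) P
  rw [h3, sb_one, hP, map_zero] at h4
  exact h4

/-- **Theorem C.**  Let `m` be odd and let `G`, `H` be integral matrices such that `g = m⁻¹ G` and
`h = m⁻¹ H` are orthogonal.  If two of the matrices `m·1`, `G`, `H` are congruent modulo `2`, there
is no measurable splitting. -/
theorem rational {m : ℤ} (hm : Odd m) {G H : Matrix (Fin 3) (Fin 3) ℤ}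
    (hg : rat m G ∈ Matrix.orthogonalGroup (Fin 3) ℝ)
    (hh : rat m H ∈ Matrix.orthogonalGroup (Fin 3) ℝ)
    (hc : (∀ i j, (2 : ℤ) ∣ G i j - (m • (1 : Matrix (Fin 3) (Fin 3) ℤ)) i j) ∨
      (∀ i j, (2 : ℤ) ∣ H i j - (m • (1 : Matrix (Fin 3) (Fin 3) ℤ)) i j) ∨
      ∀ i j, (2 : ℤ) ∣ G i j - H i j) (A : Set S2) :
    ¬ AESplit (rat m G) (rat m H) A := by
  have hm2 : (m : ZMod 2) = 1 := by
    rcases hm with ⟨k, rfl⟩
    push_cast
    have : (2 : ZMod 2) = 0 := by decide
    rw [this, zero_mul, zero_add]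
  have hmd : ¬ ((2 : ℕ) : ℤ) ∣ m := by
    rcases hm with ⟨k, rfl⟩
    push_cast
    omega
  have : Fact (Nat.Prime 2) := ⟨Nat.prime_two⟩
  apply no_split_rat (p := 2) hmd hg hh
  rw [hm2, inv_one, one_smul, one_smul]
  have hcast : ∀ K L : Matrix (Fin 3) (Fin 3) ℤ, (∀ i j, (2 : ℤ) ∣ K i j - L i j) →
      K.map (Int.castRingHom (ZMod 2)) = L.map (Int.castRingHom (ZMod 2)) := by
    intro K L h
    ext i j
    have h1 : ((K i j - L i j : ℤ) : ZMod 2) = 0 :=
      (ZMod.intCast_zmod_eq_zero_iff_dvd _ 2).2 (by exact_mod_cast h i j)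
    push_cast at h1
    simp only [Matrix.map_apply, eq_intCast]
    exact sub_eq_zero.1 h1
  have hone : (m • (1 : Matrix (Fin 3) (Fin 3) ℤ)).map (Int.castRingHom (ZMod 2)) = 1 := by
    ext i j
    rw [Matrix.map_apply, Matrix.smul_apply, smul_eq_mul, Matrix.one_apply, Matrix.one_apply]
    by_cases hij : i = j
    · simp [hij, hm2]
    · simp [hij]
  have htwo : ∀ P : MvPolynomial (Fin 3) (ZMod 2), P + P = 0 := fun P => CharTwo.add_self_eq_zero P
  rw [injective_iff_map_eq_zero]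
  intro P hP
  rw [TT_apply] at hP
  rcases hc with hc | hc | hc
  · rw [hcast _ _ hc, hone, sb_one, htwo, zero_add] at hP
    exact sb_injective_of_rat hm hh P hP
  · rw [hcast _ _ hc, hone, sb_one, add_right_comm, htwo, zero_add] at hP
    exact sb_injective_of_rat hm hg P hP
  · rw [hcast _ _ hc, add_assoc, htwo, add_zero] at hP
    exact hP

/-- **Theorem D.**  Let `p ≥ 5` be a prime, `p ∤ m`, and let `G`, `H` be integral matrices with
`G ≡ H ≡ m·1` modulo `p` such that `m⁻¹ G`, `m⁻¹ H` are orthogonal; there is no measurable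
splitting.  -/
theorem rational_prime {p : ℕ} (hp : p.Prime) (hp3 : p ≠ 3) {m : ℤ} (hm : ¬ (p : ℤ) ∣ m)
    {G H : Matrix (Fin 3) (Fin 3) ℤ} (hg : rat m G ∈ Matrix.orthogonalGroup (Fin 3) ℝ)
    (hh : rat m H ∈ Matrix.orthogonalGroup (Fin 3) ℝ)
    (hG : ∀ i j, (p : ℤ) ∣ G i j - (m • (1 : Matrix (Fin 3) (Fin 3) ℤ)) i j)
    (hH : ∀ i j, (p : ℤ) ∣ H i j - (m • (1 : Matrix (Fin 3) (Fin 3) ℤ)) i j) (A : Set S2) :
    ¬ AESplit (rat m G) (rat m H) A := by
  have : Fact p.Prime := ⟨hp⟩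
  have hmp : (m : ZMod p) ≠ 0 := by
    intro h
    exact hm ((ZMod.intCast_zmod_eq_zero_iff_dvd m p).1 h)
  apply no_split_rat (p := p) hm hg hh
  have hcast : ∀ K : Matrix (Fin 3) (Fin 3) ℤ,
      (∀ i j, (p : ℤ) ∣ K i j - (m • (1 : Matrix (Fin 3) (Fin 3) ℤ)) i j) →
      (m : ZMod p)⁻¹ • K.map (Int.castRingHom (ZMod p)) = 1 := by
    intro K h
    ext i j
    have h1 : ((K i j - (m • (1 : Matrix (Fin 3) (Fin 3) ℤ)) i j : ℤ) : ZMod p) = 0 :=
      (ZMod.intCast_zmod_eq_zero_iff_dvd _ p).2 (h i j)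
    rw [Int.cast_sub] at h1
    have h2 := sub_eq_zero.1 h1
    simp only [Matrix.smul_apply, Matrix.map_apply, eq_intCast, smul_eq_mul]
    rw [h2]
    simp only [Matrix.smul_apply, smul_eq_mul, Matrix.one_apply, Int.cast_mul]
    by_cases hij : i = j
    · simp [hij, hmp]
    · simp [hij]
  rw [hcast G hG, hcast H hH, injective_iff_map_eq_zero]
  intro P hP
  rw [TT_apply, sb_one] at hP
  have h3 : (3 : ZMod p) • P = 0 := by
    rw [← hP]
    have : (3 : ZMod p) = 1 + 1 + 1 := by norm_num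
    rw [this, add_smul, add_smul, one_smul]
  exact (smul_eq_zero.1 h3).resolve_left (three_ne hp3)

end Pool.Agent.Sph
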