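import Pool.Agent.Lib_MP_8c2fb0_lc.Generic

/-!
# Transcendental angles
-/

open MeasureTheory MvPolynomial Metric Set Filter Topology

namespace Pool.Agent.Sph

theorem circle_reduce (F : Subfield ℝ) (D : MvPolynomial (Fin 2) F) :
    ∃ A B : Polynomial F, ∀ c s : ℝ, c ^ 2 + s ^ 2 = 1 →
      MvPolynomial.aeval ![c, s] D = Polynomial.aeval c A + s * Polynomial.aeval c B := by
  induction D using MvPolynomial.induction_on with
  | C a =>
    refine ⟨Polynomial.C a, 0, fun c s _ => ?_⟩
    simp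
  | add p q hp hq =>
    obtain ⟨A, B, h⟩ := hp
    obtain ⟨A', B', h'⟩ := hq
    refine ⟨A + A', B + B', fun c s hcs => ?_⟩
    rw [map_add, map_add, map_add, h c s hcs, h' c s hcs]
    ring
  | mul_X p i hp =>
    obtain ⟨A, B, h⟩ := hp
    fin_cases i
    · refine ⟨A * Polynomial.X, B * Polynomial.X, fun c s hcs => ?_⟩
      rw [map_mul, h c s hcs]
      simp
      ring
    · refine ⟨B * (1 - Polynomial.X ^ 2), A, fun c s hcs => ?_⟩
      rw [map_mul, h c s hcs]
      have h1 : s ^ 2 = 1 - c ^ 2 := by linarith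
      simp
      linear_combination (Polynomial.aeval c B) * h1

/-- If `B` and `h` have entries in a subfield `F` of the reals and `cos α` is transcendental over
`F`, there is no measurable splitting. -/
theorem transcendental {F : Subfield ℝ} {s : ℝ} (hs : s = 1 ∨ s = -1)
    {B h : Matrix (Fin 3) (Fin 3) ℝ} (hB : B ∈ Matrix.orthogonalGroup (Fin 3) ℝ)
    (hh : h ∈ Matrix.orthogonalGroup (Fin 3) ℝ) (hBF : ∀ i j, B i j ∈ F) (hhF : ∀ i j, h i j ∈ F)
    {α : ℝ} (hα : Transcendental F (Real.cos α)) (A : Set S2) : ¬ AESplit (fam s B α) h A := by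
  classical
  refine no_split (fam_mem hs hB α) hh (injective_of_det_ne_zero fun n => ?_) A
  -- matrices over `F`
  set B' : Matrix (Fin 3) (Fin 3) F := fun i j => ⟨B i j, hBF i j⟩ with hB'
  set h' : Matrix (Fin 3) (Fin 3) F := fun i j => ⟨h i j, hhF i j⟩ with hh'
  obtain ⟨s', hs'⟩ : ∃ s' : F, (s' : ℝ) = s := by
    rcases hs with rfl | rfl
    · exact ⟨1, by simp⟩
    · exact ⟨-1, by simp⟩
  set Gp : Matrix (Fin 3) (Fin 3) (MvPolynomial (Fin 2) F) :=
    (C s' : MvPolynomial (Fin 2) F) • ((B'.map C) * !![X 0, -X 1, 0; X 1, X 0, 0; 0, 0, 1] *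
      (B'.transpose.map C)) with hGp
  set D : MvPolynomial (Fin 2) F := (MM Gp (h'.map C) n).det with hD
  have hGmap : ∀ β : ℝ, Gp.map (MvPolynomial.aeval (R := F) ![Real.cos β, Real.sin β]).toRingHom =
      fam s B β := by
    intro β
    rw [hGp]
    unfold fam
    ext i j
    simp only [Matrix.map_apply, Matrix.smul_apply, Matrix.mul_apply, smul_eq_mul]
    rw [AlgHom.toRingHom_eq_coe, RingHom.coe_coe, map_mul, map_sum, MvPolynomial.aeval_C]
    have e1 : (algebraMap F ℝ) s' = s := hs'
    rw [e1]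
    congr 1
    refine Finset.sum_congr rfl fun k _ => ?_
    rw [map_mul, map_sum, MvPolynomial.aeval_C]
    congr 1
    refine Finset.sum_congr rfl fun l _ => ?_
    rw [map_mul, MvPolynomial.aeval_C]
    congr 1
    fin_cases l <;> fin_cases k <;> simp [rot]
  have hDval : ∀ β : ℝ, MvPolynomial.aeval ![Real.cos β, Real.sin β] D =
      (MM (fam s B β) h n).det := by
    intro β
    have h1 := det_MM_map (MvPolynomial.aeval (R := F) ![Real.cos β, Real.sin β]).toRingHom Gp
      (h'.map C) n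
    rw [hGmap] at h1
    have h2 : ((h'.map C).map (MvPolynomial.aeval (R := F) ![Real.cos β, Real.sin β]).toRingHom :
        Matrix (Fin 3) (Fin 3) ℝ) = h := by
      ext i j
      simp only [Matrix.map_apply]
      rw [AlgHom.toRingHom_eq_coe, RingHom.coe_coe, MvPolynomial.aeval_C]
      rfl
    rw [h2] at h1
    rw [h1]
    rfl
  intro hzero
  obtain ⟨P, Q, hPQ⟩ := circle_reduce F D
  have h1 := hPQ (Real.cos α) (Real.sin α) (Real.cos_sq_add_sin_sq α)
  rw [hDval α, hzero] at h1
  have h2 : Polynomial.aeval (Real.cos α) (P ^ 2 - (1 - Polynomial.X ^ 2) * Q ^ 2) = 0 := by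
    have h3 : Polynomial.aeval (Real.cos α) P = -(Real.sin α * Polynomial.aeval (Real.cos α) Q) := by
      linarith
    have h4 := Real.cos_sq_add_sin_sq α
    simp only [map_sub, map_pow, map_mul, map_one, Polynomial.aeval_X]
    rw [h3]
    linear_combination (Polynomial.aeval (Real.cos α) Q) ^ 2 * h4
  have h5 : P ^ 2 - (1 - Polynomial.X ^ 2) * Q ^ 2 = 0 := by
    by_contra hne
    exact hα ⟨_, hne, h2⟩
  have h6 : P.eval 1 = 0 := by
    have h7 := congrArg (Polynomial.eval 1) h5
    simp at h7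
    exact h7
  have h8 := hPQ (Real.cos 0) (Real.sin 0) (Real.cos_sq_add_sin_sq 0)
  rw [hDval 0, fam_zero hB, Real.cos_zero, Real.sin_zero] at h8
  have h9 : Polynomial.aeval (1 : ℝ) P = 0 := by
    have h10 : Polynomial.aeval (1 : ℝ) P = algebraMap F ℝ (P.eval 1) := by
      rw [← Polynomial.aeval_algebraMap_apply_eq_algebraMap_eval]
      simp
    rw [h10, h6, map_zero]
  rw [h9, zero_mul, add_zero] at h8
  exact det_ne_zero_of_injective (injective_at_zero hs hh) n h8

end Pool.Agent.Sph
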