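import Pool.Agent.Lib_MP_8c2fb0_lc.Place

/-!
# Finitely generated groups of isometries
-/

open MeasureTheory MvPolynomial Metric Set Filter Topology

namespace Pool.Agent.Sph

theorem isJacobsonRing_int : IsJacobsonRing ℤ := by
  rw [isJacobsonRing_iff_prime_eq]
  intro P hP
  by_cases h0 : P = ⊥
  · subst h0
    rw [eq_bot_iff]
    intro x hx
    rw [Ideal.mem_jacobson_bot] at hx
    have h1 := hx x
    rw [Int.isUnit_iff] at h1
    have h2 : x = 0 := by
      rcases h1 with h1 | h1
      · have : x * x = 0 := by linarith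
        simpa using this
      · nlinarith [mul_self_nonneg x]
    rw [h2]
    exact Ideal.zero_mem _
  · have : P.IsMaximal := hP.isMaximal h0
    exact Ideal.jacobson_eq_self_of_isMaximal

theorem finite_of_field (k : Type*) [Field k] [Algebra.FiniteType ℤ k] : Finite k := by
  have : IsJacobsonRing ℤ := isJacobsonRing_int
  have hfin : Module.Finite ℤ k := finite_of_finite_type_of_isJacobsonRing ℤ k
  obtain ⟨p, hp⟩ := CharP.exists k
  rcases CharP.char_is_prime_or_zero k p with hp' | hp'
  · have : Fact p.Prime := ⟨hp'⟩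
    let _ : Algebra (ZMod p) k := ZMod.algebra k p
    have : Module.Finite (ZMod p) k := Module.Finite.of_restrictScalars_finite ℤ (ZMod p) k
    exact Module.finite_of_finite (ZMod p)
  · subst hp'
    exfalso
    have hc : CharZero k := CharP.charP_to_charZero k
    have hint : Algebra.IsIntegral ℤ k := inferInstance
    have hinj : Function.Injective (algebraMap ℤ k) := by
      intro a b h
      simpa using h
    have := isField_of_isIntegral_of_isField hinj (Field.toIsField k)
    exact Int.not_isField this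

/-- Every finitely generated group `Γ` of isometries of the sphere has a normal subgroup `Γ'` of
finite index such that no pair of elements of `Γ'` splits the sphere measurably. -/
theorem virtually (Γ : Subgroup (Matrix.orthogonalGroup (Fin 3) ℝ)) (hΓ : Γ.FG) :
    ∃ Γ' : Subgroup Γ, Γ'.Normal ∧ Γ'.FiniteIndex ∧ ∀ g ∈ Γ', ∀ h ∈ Γ', ∀ A : Set S2,
      ¬ AESplit ((g : Matrix.orthogonalGroup (Fin 3) ℝ) : Matrix (Fin 3) (Fin 3) ℝ)
        ((h : Matrix.orthogonalGroup (Fin 3) ℝ) : Matrix (Fin 3) (Fin 3) ℝ) A := by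
  classical
  obtain ⟨S, hS⟩ := hΓ
  -- the ring of entries
  set E : Finset ℝ := insert (1 / 3 : ℝ) (S.biUnion fun g => Finset.univ.image
    fun ij : Fin 3 × Fin 3 => g.1 ij.1 ij.2) with hE
  set R : Subalgebra ℤ ℝ := Algebra.adjoin ℤ (E : Set ℝ) with hR
  have hRft : Algebra.FiniteType ℤ R := by
    rw [hR]
    exact (Subalgebra.fg_iff_finiteType _).1 (Subalgebra.fg_adjoin_finset E)
  have hEsub : ∀ x ∈ E, x ∈ R := fun x hx => Algebra.subset_adjoin (by exact_mod_cast hx)
  have hmem : ∀ g ∈ Γ, ∀ i j, g.1 i j ∈ R := by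
    intro g hg
    rw [← hS] at hg
    induction hg using Subgroup.closure_induction with
    | mem g hg =>
      intro i j
      apply hEsub
      rw [hE, Finset.mem_insert, Finset.mem_biUnion]
      right
      exact ⟨g, hg, Finset.mem_image_of_mem (fun ij : Fin 3 × Fin 3 => g.1 ij.1 ij.2)
        (Finset.mem_univ (i, j))⟩
    | one =>
      intro i j
      have h1 : (1 : Matrix.orthogonalGroup (Fin 3) ℝ).1 = 1 := rfl
      rw [h1, Matrix.one_apply]
      split_ifs
      · exact R.one_mem
      · exact R.zero_mem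
    | mul x y _ _ hx hy =>
      intro i j
      have h1 : (x * y).1 = x.1 * y.1 := rfl
      rw [h1, Matrix.mul_apply]
      exact R.sum_mem fun k _ => R.mul_mem (hx i k) (hy k j)
    | inv x _ hx =>
      intro i j
      have h1 : (x⁻¹).1 = x.1.transpose := rfl
      rw [h1, Matrix.transpose_apply]
      exact hx j i
  -- the residue field
  obtain ⟨M, hM⟩ := Ideal.exists_maximal R
  let _ : Field (R ⧸ M) := Ideal.Quotient.field M
  have hkft : @Algebra.FiniteType ℤ (R ⧸ M) _ _ (Ring.toIntAlgebra (R ⧸ M)) :=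
    @Algebra.FiniteType.of_surjective ℤ R (R ⧸ M) _ _ _ _ (Ring.toIntAlgebra (R ⧸ M)) hRft
      (@AlgHom.mk ℤ R (R ⧸ M) _ _ _ _ (Ring.toIntAlgebra (R ⧸ M)) (Ideal.Quotient.mk M)
        (fun z => by
          rw [eq_intCast, eq_intCast]
          exact map_intCast (Ideal.Quotient.mk M) z))
      Ideal.Quotient.mk_surjective
  have hkfin : Finite (R ⧸ M) := @finite_of_field (R ⧸ M) _ hkft
  have h3 : (3 : R ⧸ M) ≠ 0 := by
    intro h
    have h13 : (1 / 3 : ℝ) ∈ R := hEsub _ (Finset.mem_insert_self _ _)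
    have h2 : (3 : R) * ⟨1 / 3, h13⟩ = 1 := by
      apply Subtype.ext
      change (3 : ℝ) * (1 / 3) = 1
      norm_num
    have h4 := congrArg (Ideal.Quotient.mk M) h2
    rw [map_mul, map_one, map_ofNat, h, zero_mul] at h4
    exact zero_ne_one h4
  -- matrices over `R`
  let L : Γ →* Matrix (Fin 3) (Fin 3) R :=
    { toFun := fun g => fun i j => ⟨g.1.1 i j, hmem g.1 g.2 i j⟩
      map_one' := by
        ext i j
        change (1 : Matrix (Fin 3) (Fin 3) ℝ) i j = (((1 : Matrix (Fin 3) (Fin 3) R) i j : R) : ℝ)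
        rw [Matrix.one_apply, Matrix.one_apply]
        split_ifs <;> rfl
      map_mul' := fun x y => by
        ext i j
        change (x.1.1 * y.1.1) i j = _
        rw [Matrix.mul_apply, Matrix.mul_apply]
        push_cast
        rfl }
  let ρ : Γ →* Matrix (Fin 3) (Fin 3) (R ⧸ M) :=
    ((Ideal.Quotient.mk M).mapMatrix : Matrix (Fin 3) (Fin 3) R →+*
      Matrix (Fin 3) (Fin 3) (R ⧸ M)).toMonoidHom.comp L
  let K : Subgroup Γ := ρ.toHomUnits.ker
  have hfinM : Finite (Matrix (Fin 3) (Fin 3) (R ⧸ M))ˣ := by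
    have : Finite (Matrix (Fin 3) (Fin 3) (R ⧸ M)) := by
      unfold Matrix
      infer_instance
    infer_instance
  refine ⟨K, inferInstance, Subgroup.finiteIndex_ker _, ?_⟩
  intro g hg h hh A
  have hker : ∀ g : Γ, g ∈ K → (L g).map (Ideal.Quotient.mk M) = 1 := by
    intro g hg
    have h1 : ρ.toHomUnits g = 1 := hg
    have h2 := congrArg Units.val h1
    rw [MonoidHom.coe_toHomUnits, Units.val_one] at h2
    exact h2
  have hLmap : ∀ g : Γ, g.1.1.map Complex.ofRealHom =
      1 * (L g).map (Complex.ofRealHom.comp (algebraMap R ℝ)) * 1 := by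
    intro g
    rw [one_mul, mul_one]
    ext i j
    rfl
  refine no_split_of_place (i := Complex.ofRealHom.comp (algebraMap R ℝ)) ?_
    (Ideal.Quotient.mk M) (mul_one 1) g.1.2 h.1.2 (hLmap g) (hLmap h) ?_ A
  · exact Complex.ofReal_injective.comp Subtype.val_injective
  · rw [hker g hg, hker h hh, injective_iff_map_eq_zero]
    intro P hP
    rw [TT_apply, sb_one] at hP
    have h5 : (3 : R ⧸ M) • P = 0 := by
      rw [← hP]
      have : (3 : R ⧸ M) = 1 + 1 + 1 := by norm_num
      rw [this, add_smul, add_smul, one_smul]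
    exact (smul_eq_zero.1 h5).resolve_left h3

end Pool.Agent.Sph
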